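import Pool.Agent.Lib.MP_d0f9e0_co.PH.Neg96
import Pool.Agent.Lib.MP_d0f9e0_co.SH.Bridge
import Pool.Agent.Lib.MP_d0f9e0_co.GH.Adm

set_option autoImplicit false

/-!
# The phase `zL` on `V / L`: norm, evenness, transport, invariance, (T), (D) (helper96)
-/

namespace Pool.MP_d0f9e0_co.PH

open SH GH

/-- The phase of the level one function. -/
noncomputable def zS (a b z : ℝ) : ℂ :=
  Complex.exp (Real.pi * Complex.I * ((B22 a b z / 2 : ℝ) : ℂ))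

theorem cs_zS : CS zS := cs_exp

variable {θ η : ℝ} {A : V ≃+ V} {L : AddSubgroup V} {δ : ℚ} {u w : V}

theorem goodz (hθ : Irrational θ) (hA : Hyp θ A η) (h1 : 1 < η) : Good θ A η where
  toHyp := hA
  ex := by
    obtain ⟨v, hv⟩ := exists_Q_pos hθ hA h1
    have h0 : ell θ v ≠ 0 := by
      intro h
      rw [ell_eq_zero hθ h] at hv
      simp [det] at hv
    rcases lt_or_gt_of_ne h0 with h | h
    · refine ⟨-v, ?_, ?_⟩
      · rw [ell_neg]; linarith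
      · rw [map_neg, det_neg_left, det_neg_right, neg_neg]; exact hv
    · exact ⟨v, h, hv⟩

theorem exp_FZ (θ : ℝ) {X : Set V} (hX : Disc X) (v w : V) :
    Complex.exp (Real.pi * Complex.I * (FZ θ X v w : ℝ)) = F zS θ X v w := by
  rw [FZ_eq_sum θ hX, F_eq_prod θ hX]
  unfold zS
  rw [← Complex.exp_sum]
  congr 1
  push_cast
  rw [Finset.mul_sum]

theorem exp_clsZ (θ : ℝ) (A : V ≃+ V) {X : Set V} (hX : Disc X) :
    Complex.exp (Real.pi * Complex.I * (clsZ θ A X : ℝ)) = cls zS θ A X := by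
  unfold clsZ cls
  split_ifs with h
  · exact exp_FZ θ hX _ _
  · simp

/-- `zL` is the class function of `zS`. -/
theorem zL_eq_cl (hLat : Lat L δ u w) (x : V ⧸ L) : zL θ A L x = cl zS θ A L x := by
  rw [zL]
  exact exp_clsZ θ A (GH.fib_disc hLat x)

theorem zL_norm (θ : ℝ) (A : V ≃+ V) (L : AddSubgroup V) (x : V ⧸ L) : ‖zL θ A L x‖ = 1 := by
  rw [zL, mul_right_comm, ← Complex.ofReal_mul, Complex.norm_exp_ofReal_mul_I]

theorem zL_ne (θ : ℝ) (A : V ≃+ V) (L : AddSubgroup V) (x : V ⧸ L) : zL θ A L x ≠ 0 :=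
  Complex.exp_ne_zero _

/-- `z(-x) = z(x)`. -/
theorem zL_neg (hθ : Irrational θ) (hA : Hyp θ A η) (h1 : 1 < η)
    (hLat : Lat L δ u w) (hL : Stb A L) {x : V ⧸ L} (hx : x ∈ GH.Fx A L) :
    zL θ A L (-x) = zL θ A L x := by
  obtain ⟨v, hv, hadm⟩ := GH.fib_adm hθ hA h1 hLat x
  unfold zL
  rw [clsZ_neg hθ hA (GH.fib_disc hLat x) (GH.fib_inv hL hx) (Y := GH.fib L (-x)) ?_ hadm]
  intro p
  show (QuotientAddGroup.mk p : V ⧸ L) = -x ↔ (QuotientAddGroup.mk (-p) : V ⧸ L) = x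
  rw [QuotientAddGroup.mk_neg]
  constructor
  · intro h; rw [h, neg_neg]
  · intro h; rw [← h, neg_neg]

/-- The value by any totally positive vector of the lattice. -/
theorem zL_eq_FZ (hθ : Irrational θ) (hA : Hyp θ A η)
    (hLat : Lat L δ u w) (hL : Stb A L) {x : V ⧸ L} (hx : x ∈ GH.Fx A L) {v : V} (hv : v ∈ L)
    (p1 : 0 < ell θ v) (p2 : 0 < det v (A v)) :
    zL θ A L x = Complex.exp (Real.pi * Complex.I * (FZ θ (GH.fib L x) v (A v) : ℝ)) := by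
  unfold zL
  rw [clsZ_eq hθ hA (GH.fib_disc hLat x) (GH.fib_inv hL hx) ⟨GH.fib_per L x hv, p1, p2⟩]

/-- **(T)** -/
theorem zL_pow (hθ : Irrational θ) (hA : Hyp θ A η) (h1 : 1 < η)
    (hLat : Lat L δ u w) (hL : Stb A L) {x : V ⧸ L} (hx : x ∈ GH.Fx A L) {j : ℕ} (hj : 0 < j) :
    zL θ (pw A j) L x = zL θ A L x ^ j := by
  rw [zL_eq_cl hLat, zL_eq_cl hLat]
  exact cl_pow cs_zS hθ (goodz hθ hA h1) (SH.Lat.of_gh hLat) hL ((mem_Fx_iff hL).mp hx) hj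

/-- **(H)**: transport by `g` with `g L = L'`, `g A' = A g`. -/
theorem zL_map {θ' : ℝ} (hθ : Irrational θ) (hθ' : Irrational θ')
    {A' : V ≃+ V} (hA : Hyp θ A η) (hA' : Hyp θ' A' η) (h1 : 1 < η)
    {L' : AddSubgroup V} {δ' : ℚ} {u' w' : V} (hLat : Lat L δ u w) (hLat' : Lat L' δ' u' w')
    (hL : Stb A' L) (g : V ≃+ V) (hg : ∀ p, g p ∈ L' ↔ p ∈ L) {ε : ℚ} (hε : 0 < ε)
    (hdet : ∀ p q, det (g p) (g q) = ε * det p q) {l : ℝ} (hl : 0 < l)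
    (hell : ∀ p, ell θ (g p) = l * ell θ' p) (hc : ∀ p, g (A' p) = A (g p)) {p : V}
    (hx : (QuotientAddGroup.mk p : V ⧸ L) ∈ GH.Fx A' L) :
    zL θ A L' (QuotientAddGroup.mk (g p)) = zL θ' A' L (QuotientAddGroup.mk p) := by
  rw [zL_eq_cl hLat, zL_eq_cl hLat']
  exact cl_map cs_zS hθ hθ' hA (goodz hθ' hA' h1) (SH.Lat.of_gh hLat) (SH.Lat.of_gh hLat') hL g hg
    hε hdet hl hell hc ((mem_Fx_iff hL).mp hx)

/-- Invariance under an automorphism of `(V, L)` commuting with `A`. -/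
theorem zL_comm (hθ : Irrational θ) (hA : Hyp θ A η) (h1 : 1 < η)
    (hLat : Lat L δ u w) (hL : Stb A L) (g : V ≃+ V) (hg : Stb g L) {l : ℝ}
    (hG : Hyp θ g l) (hc : ∀ p, g (A p) = A (g p)) {p : V}
    (hx : (QuotientAddGroup.mk p : V ⧸ L) ∈ GH.Fx A L) :
    zL θ A L (QuotientAddGroup.mk (g p)) = zL θ A L (QuotientAddGroup.mk p) :=
  zL_map hθ hθ hA hA h1 hLat hLat hL g hg (ε := 1) one_pos
    (fun p q => by rw [one_mul, hG.det_eq]) hG.pos hG.ell_eq hc hx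

/-- **(D)**: `L ≤ L'`, `z i` (`i ∈ s`) representatives of `L' / L`. -/
theorem zL_dist (hθ : Irrational θ) (hA : Hyp θ A η) (h1 : 1 < η)
    {L' : AddSubgroup V} {δ' : ℚ} {u' w' : V} (hLat : Lat L δ u w) (hLat' : Lat L' δ' u' w')
    (hL : Stb A L) (hLL : L ≤ L') {ι : Type*} (s : Finset ι) (z : ι → V)
    (hz : ∀ i ∈ s, z i ∈ L') (hz1 : ∀ l ∈ L', ∃ i ∈ s, l - z i ∈ L)
    (hz2 : ∀ i ∈ s, ∀ j ∈ s, z i - z j ∈ L → i = j) {p : V}
    (hx : ∀ i ∈ s, (QuotientAddGroup.mk (p + z i) : V ⧸ L) ∈ GH.Fx A L) :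
    zL θ A L' (QuotientAddGroup.mk p) =
      ∏ i ∈ s, zL θ A L (QuotientAddGroup.mk (p + z i)) := by
  rw [zL_eq_cl hLat', Finset.prod_congr rfl fun i _ => zL_eq_cl hLat _]
  exact cl_dist cs_zS hθ (goodz hθ hA h1) (SH.Lat.of_gh hLat) (SH.Lat.of_gh hLat') hL hLL s z hz
    hz1 hz2 (fun i hi => (mem_Fx_iff hL).mp (hx i hi))

end Pool.MP_d0f9e0_co.PH
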