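import Pool.Agent.Lib.MP_d0f9e0_co.GH.Defs

set_option autoImplicit false

/-!
# The double Bernoulli polynomial is a cone function (helper96)
-/

namespace Pool.MP_d0f9e0_co.PH

open SH GH

theorem B22_symm (a b z : ℝ) : B22 a b z = B22 b a z := by
  unfold B22; ring

theorem B22_homog {l a b : ℝ} (hl : 0 < l) (ha : 0 < a) (hb : 0 < b) (z : ℝ) :
    B22 (l * a) (l * b) (l * z) = B22 a b z := by
  unfold B22; field_simp

theorem B22_refl {a b : ℝ} (ha : 0 < a) (hb : 0 < b) (z : ℝ) :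
    B22 a b (a + b - z) = B22 a b z := by
  unfold B22; field_simp; ring

theorem B22_subdiv {a b : ℝ} (ha : 0 < a) (hb : 0 < b) (z : ℝ) :
    B22 a b z = B22 a (a + b) z + B22 (a + b) b (z + b) := by
  have hab : a + b ≠ 0 := by positivity
  unfold B22; field_simp; ring

theorem sum_id_real (n : ℕ) : ∑ k ∈ Finset.range n, (k : ℝ) = n * (n - 1) / 2 := by
  induction n with
  | zero => simp
  | succ n ih => rw [Finset.sum_range_succ, ih]; push_cast; ring

theorem sum_sq_real (n : ℕ) :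
    ∑ k ∈ Finset.range n, (k : ℝ) ^ 2 = n * (n - 1) * (2 * n - 1) / 6 := by
  induction n with
  | zero => simp
  | succ n ih => rw [Finset.sum_range_succ, ih]; push_cast; ring

theorem B22_refine {a b : ℝ} (ha : 0 < a) (hb : 0 < b) {n : ℕ} (hn : 0 < n) (z : ℝ) :
    B22 a b z = ∑ k ∈ Finset.range n, B22 (n * a) b (z + k * a) := by
  have hn' : (n : ℝ) ≠ 0 := by exact_mod_cast hn.ne'
  have h1 : ∀ k : ℕ, B22 (n * a) b (z + k * a) =
      (z ^ 2 / (n * a * b) - (n * a + b) * z / (n * a * b) +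
        ((n * a) ^ 2 + b ^ 2 + 3 * (n * a) * b) / (6 * (n * a) * b)) +
      (2 * z * a / (n * a * b) - (n * a + b) * a / (n * a * b)) * k +
        (a ^ 2 / (n * a * b)) * (k : ℝ) ^ 2 := by
    intro k
    unfold B22
    field_simp
    ring
  rw [Finset.sum_congr rfl fun k _ => h1 k, Finset.sum_add_distrib, Finset.sum_add_distrib,
    ← Finset.mul_sum, ← Finset.mul_sum, sum_id_real, sum_sq_real, Finset.sum_const,
    Finset.card_range, nsmul_eq_mul]
  unfold B22
  field_simp
  ring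

/-- The additive form: `B22 / 2` with values in `Multiplicative ℝ`. -/
theorem cs_B22 : CS (fun a b z => Multiplicative.ofAdd (B22 a b z / 2)) where
  unit := fun _ _ _ _ _ _ _ _ => Group.isUnit _
  symm := fun a b z _ _ _ _ _ => by simp only [B22_symm a b z]
  homog := fun l a b z hl ha hb _ _ _ => by simp only [B22_homog hl ha hb]
  subdiv := fun a b z ha hb _ _ _ => by
    rw [← ofAdd_add, B22_subdiv ha hb z]
    congr 1
    ring
  refine := fun a b z ha hb _ n hn _ _ => by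
    rw [B22_refine ha hb hn z, Finset.sum_div, ofAdd_sum]

/-- The phase of the level one function. -/
theorem cs_exp : CS (fun a b z => Complex.exp (Real.pi * Complex.I * ((B22 a b z / 2 : ℝ) : ℂ))) := by
  exact {
    unit := fun _ _ _ _ _ _ _ _ => (Complex.exp_ne_zero _).isUnit
    symm := fun a b z _ _ _ _ _ => by simp only [B22_symm a b z]
    homog := fun l a b z hl ha hb _ _ _ => by simp only [B22_homog hl ha hb]
    subdiv := fun a b z ha hb _ _ _ => by
      rw [← Complex.exp_add, B22_subdiv ha hb z]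
      congr 1
      push_cast
      ring
    refine := fun a b z ha hb _ n hn _ _ => by
      rw [B22_refine ha hb hn z, ← Complex.exp_sum, Finset.sum_div]
      congr 1
      push_cast
      rw [Finset.mul_sum] }

/-- The canonical complex function `S exp (pi i B22 / 2)` for a double sine function `S`. -/
theorem cs_full {S : ℝ → ℝ → ℝ → ℝ} (h : CS S) :
    CS (fun a b z => ((S a b z : ℝ) : ℂ) *
      Complex.exp (Real.pi * Complex.I * ((B22 a b z / 2 : ℝ) : ℂ))) := by
  have h1 : CS (fun a b z => Complex.ofRealHom (S a b z)) :=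
    h.map (Complex.ofRealHom : ℝ →+* ℂ).toMonoidHom
  exact h1.mul cs_exp

/-! ### `clsZ` is the class function of `cs_B22` -/

/-- The additive cone function. -/
noncomputable def SB (a b z : ℝ) : Multiplicative ℝ := Multiplicative.ofAdd (B22 a b z / 2)

theorem cs_SB : CS SB := cs_B22

theorem FZ_eq (θ : ℝ) {X : Set V} (hX : Disc X) (v w : V) :
    FZ θ X v w = Multiplicative.toAdd (F SB θ X v w) := by
  have hf := finite_inter hX v w
  rw [FZ, F, finsum_mem_eq_finite_toFinset_sum _ hf, finprod_mem_eq_finite_toFinset_prod _ hf,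
    toAdd_prod]
  rfl

theorem clsZ_eq_cls (θ : ℝ) (A : V ≃+ V) {X : Set V} (hX : Disc X) :
    clsZ θ A X = Multiplicative.toAdd (cls SB θ A X) := by
  unfold clsZ cls
  split_ifs with h
  · exact FZ_eq θ hX _ _
  · rfl

/-- The phase does not depend on the starting vector. -/
theorem clsZ_eq {θ η : ℝ} (hθ : Irrational θ) {A : V ≃+ V} (hA : Hyp θ A η) {X : Set V}
    (hX : Disc X) (hI : Inv A X) {v : V} (hv : Adm θ A X v) :
    clsZ θ A X = FZ θ X v (A v) := by
  rw [clsZ_eq_cls θ A hX, FZ_eq θ hX, cls_eq cs_SB hθ hA hX hI hv]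

/-- Transport of the phase. -/
theorem clsZ_map {θ θ' η : ℝ} (hθ : Irrational θ) (hθ' : Irrational θ')
    {A A' : V ≃+ V} (hA : Hyp θ A η) (hA' : Hyp θ' A' η) {X Y : Set V} (hX : Disc X)
    (hY : Disc Y) (hI : Inv A' X) (g : V ≃+ V) (hg : ∀ p, g p ∈ Y ↔ p ∈ X)
    {δ : ℚ} (hδ : 0 < δ) (hdet : ∀ p q, det (g p) (g q) = δ * det p q)
    {l : ℝ} (hl : 0 < l) (hell : ∀ p, ell θ (g p) = l * ell θ' p)
    (hc : ∀ p, g (A' p) = A (g p)) {v : V} (hv : Adm θ' A' X v) :
    clsZ θ A Y = clsZ θ' A' X := by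
  rw [clsZ_eq_cls θ A hY, clsZ_eq_cls θ' A' hX,
    cls_map cs_SB hθ hθ' hA hA' hX hY hI g hg hδ hdet hl hell hc hv]

/-- Distribution relation of the phase. -/
theorem clsZ_union {θ η : ℝ} (hθ : Irrational θ) {A : V ≃+ V} (hA : Hyp θ A η)
    {ι : Type*} (s : Finset ι) (X : ι → Set V) (Y : Set V)
    (hX : ∀ i ∈ s, Disc (X i)) (hYd : Disc Y) (hXI : ∀ i ∈ s, Inv A (X i))
    (hY : ∀ p, p ∈ Y ↔ ∃ i ∈ s, p ∈ X i)
    (hdis : ∀ i ∈ s, ∀ j ∈ s, ∀ p, p ∈ X i → p ∈ X j → i = j) {v : V} (hv : 0 < ell θ v)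
    (hdv : 0 < det v (A v)) (hper : ∀ i ∈ s, Per (X i) v) :
    clsZ θ A Y = ∑ i ∈ s, clsZ θ A (X i) := by
  rw [clsZ_eq_cls θ A hYd, cls_union cs_SB hθ hA s X Y hX hYd hXI hY hdis hv hdv hper, toAdd_prod]
  refine Finset.sum_congr rfl fun i hi => ?_
  rw [clsZ_eq_cls θ A (hX i hi)]

/-- The product of the positive and the phase function is a class function. -/
theorem cls_full_eq {S : ℝ → ℝ → ℝ → ℝ} (h : CS S) {θ η : ℝ} (hθ : Irrational θ) {A : V ≃+ V}
    (hA : Hyp θ A η) {X : Set V} (hX : Disc X) (hI : Inv A X) {v : V} (hv : Adm θ A X v) :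
    ((cls S θ A X : ℝ) : ℂ) * Complex.exp (Real.pi * Complex.I * (clsZ θ A X : ℝ)) =
      F (fun a b z => ((S a b z : ℝ) : ℂ) *
        Complex.exp (Real.pi * Complex.I * ((B22 a b z / 2 : ℝ) : ℂ))) θ X v (A v) := by
  have hf := finite_inter hX v (A v)
  rw [cls_eq h hθ hA hX hI hv, clsZ_eq hθ hA hX hI hv, F, F, FZ,
    finprod_mem_eq_finite_toFinset_prod _ hf, finprod_mem_eq_finite_toFinset_prod _ hf,
    finsum_mem_eq_finite_toFinset_sum _ hf, Finset.prod_mul_distrib, ← Complex.exp_sum]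
  push_cast
  rw [Finset.mul_sum]

end Pool.MP_d0f9e0_co.PH
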