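import Pool.Agent.Lib.MP_d0f9e0_co.PH.Cs96
import Pool.Agent.Lib.MP_d0f9e0_co.SH.Refl

set_option autoImplicit false

/-!
# The phase of `-X` (helper96)
-/

namespace Pool.MP_d0f9e0_co.PH

open SH GH Set

theorem B22_ray_w {a b : ℝ} (ha : 0 < a) (hb : 0 < b) (t : ℝ) :
    B22 a b (a + (1 - t) * b) = B22 a b (a + t * b) + (1 - 2 * t) := by
  unfold B22; field_simp; ring

theorem B22_ray_v {a b : ℝ} (ha : 0 < a) (hb : 0 < b) (t : ℝ) :
    B22 a b ((1 - t) * a) = B22 a b (t * a) - (1 - 2 * t) := by
  unfold B22; field_simp; ring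

theorem B_rho {θ : ℝ} {v w p : V} (hv : 0 < ell θ v) (hw : 0 < ell θ w) (hp : p ∈ Par v w) :
    B22 (ell θ v) (ell θ w) (ell θ (rho v w p)) =
      B22 (ell θ v) (ell θ w) (ell θ p) -
      (if det v p = 0 ∧ det p w ≠ det v w then
        1 - 2 * ((det p w / det v w : ℚ) : ℝ) else 0) +
      (if det p w = det v w ∧ det v p ≠ 0 then
        1 - 2 * ((det v p / det v w : ℚ) : ℝ) else 0) := by
  obtain ⟨l1, l2⟩ := ell_mem hv hw hp
  obtain ⟨h1, h2, h3, h4⟩ := hp
  have hD : 0 < det v w := lt_of_lt_of_le h1 h2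
  have hDR : (0 : ℝ) < det v w := by exact_mod_cast hD
  have ee := ell_expand θ v w p
  by_cases ca : det p w = det v w
  · by_cases cb : det v p = 0
    · have hpv : ell θ p = ell θ v := by
        rw [ca, cb, Rat.cast_zero, zero_mul, add_zero] at ee
        exact mul_left_cancel₀ hDR.ne' ee
      have hr : rho v w p = v + w - p + v - w := by
        unfold rho; rw [if_pos ca, if_pos cb]
      have hr2 : ell θ (rho v w p) = ell θ v := by
        rw [hr]
        simp only [sub_eq_add_neg, ell_add, ell_neg, hpv]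
        ring
      rw [hr2, hpv, if_neg (fun hh => hh.2 ca), if_neg (fun hh => hh.2 cb)]
      ring
    · set t : ℝ := ((det v p / det v w : ℚ) : ℝ) with ht
      have ht' : t = (det v p : ℝ) / det v w := by rw [ht]; push_cast; rfl
      have hpv : ell θ p = ell θ v + t * ell θ w := by
        rw [ca] at ee
        rw [ht']
        field_simp
        linarith
      have hr : rho v w p = v + w - p + v := by
        unfold rho; rw [if_pos ca, if_neg cb, sub_zero]
      have hr2 : ell θ (rho v w p) = ell θ v + (1 - t) * ell θ w := by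
        rw [hr]
        simp only [sub_eq_add_neg, ell_add, ell_neg, hpv]
        ring
      rw [hr2, hpv, B22_ray_w hv hw, if_neg (fun hh => hh.2 ca), if_pos ⟨ca, cb⟩]
      ring
  · by_cases cb : det v p = 0
    · set t : ℝ := ((det p w / det v w : ℚ) : ℝ) with ht
      have ht' : t = (det p w : ℝ) / det v w := by rw [ht]; push_cast; rfl
      have hpv : ell θ p = t * ell θ v := by
        rw [cb, Rat.cast_zero, zero_mul, add_zero] at ee
        rw [ht']
        field_simp
        linarith
      have hr : rho v w p = v + w - p - w := by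
        unfold rho; rw [if_neg ca, if_pos cb, add_zero]
      have hr2 : ell θ (rho v w p) = (1 - t) * ell θ v := by
        rw [hr]
        simp only [sub_eq_add_neg, ell_add, ell_neg, hpv]
        ring
      rw [hr2, hpv, B22_ray_v hv hw, if_pos ⟨cb, ca⟩, if_neg (fun hh => ca hh.1)]
      ring
    · have hr : rho v w p = v + w - p := by
        unfold rho; rw [if_neg ca, if_neg cb, add_zero, sub_zero]
      have hr2 : ell θ (rho v w p) = ell θ v + ell θ w - ell θ p := by
        rw [hr]
        simp only [sub_eq_add_neg, ell_add, ell_neg]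
      rw [hr2, B22_refl hv hw, if_neg (fun hh => cb hh.1), if_neg (fun hh => ca hh.1)]
      ring

theorem FZ_eq_sum (θ : ℝ) {X : Set V} (hX : Disc X) (v w : V) :
    FZ θ X v w = ∑ p ∈ (finite_inter hX v w).toFinset,
      B22 (ell θ v) (ell θ w) (ell θ p) / 2 := by
  unfold FZ
  exact finsum_mem_eq_finite_toFinset_sum _ _

/-- **The phase is even.** -/
theorem clsZ_neg {θ η : ℝ} (hθ : Irrational θ) {A : V ≃+ V}
    (hA : Hyp θ A η) {X Y : Set V} (hX : Disc X) (hI : Inv A X) (hY : ∀ p, p ∈ Y ↔ -p ∈ X)
    {v : V} (hv : Adm θ A X v) :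
    clsZ θ A Y = clsZ θ A X := by
  have hYd : Disc Y := by
    obtain ⟨N, hN, hXN⟩ := hX
    refine ⟨N, hN, fun p hp => ?_⟩
    obtain ⟨a, b, ha, hb⟩ := hXN (-p) ((hY p).mp hp)
    refine ⟨-a, -b, ?_, ?_⟩
    · rw [Prod.fst_neg] at ha
      push_cast
      linarith
    · rw [Prod.snd_neg] at hb
      push_cast
      linarith
  have hYI : Inv A Y := by
    intro p
    rw [hY, hY, ← map_neg, hI]
  have hYv : Adm θ A Y v := by
    refine ⟨?_, hv.pos, hv.det_pos⟩
    intro p
    rw [hY, hY, neg_add, ← sub_eq_add_neg, hv.per.sub_mem]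
  have hAv := hv.map hA hI
  rw [clsZ_eq hθ hA hX hI hv, clsZ_eq hθ hA hYd hYI hYv, FZ_eq_sum θ hX, FZ_eq_sum θ hYd]
  set w := A v with hw
  have hD : 0 < det v w := hv.det_pos
  set P := (finite_inter hX v w).toFinset with hP
  set Q := (finite_inter hYd v w).toFinset with hQ
  have hPm : ∀ p, p ∈ P ↔ p ∈ X ∩ Par v w := fun p => Finite.mem_toFinset _
  have hQm : ∀ p, p ∈ Q ↔ p ∈ Y ∩ Par v w := fun p => Finite.mem_toFinset _
  have hX' : ∀ p, p ∈ X ↔ -p ∈ Y := by
    intro p
    rw [hY, neg_neg]
  have e1 : ∑ q ∈ Q, B22 (ell θ v) (ell θ w) (ell θ q) / 2 =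
      ∑ p ∈ P, B22 (ell θ v) (ell θ w) (ell θ (rho v w p)) / 2 := by
    refine (Finset.sum_nbij' (rho v w) (rho v w) ?_ ?_ ?_ ?_ ?_).symm
    · intro p hp
      rw [hPm] at hp
      rw [hQm]
      exact rho_mem hY hv.per hAv.per hp
    · intro q hq
      rw [hQm] at hq
      rw [hPm]
      exact rho_mem hX' hYv.per (hYv.map hA hYI).per hq
    · intro p hp
      rw [hPm] at hp
      exact rho_rho hp.2
    · intro q hq
      rw [hQm] at hq
      exact rho_rho hq.2
    · intro p _
      rfl
  rw [e1, ← Finset.sum_div, ← Finset.sum_div,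
    Finset.sum_congr rfl (fun p hp => B_rho hv.pos hAv.pos ((hPm p).mp hp).2),
    Finset.sum_add_distrib, Finset.sum_sub_distrib]
  -- the rays cancel
  have e2 : (∑ p ∈ P, if det v p = 0 ∧ det p w ≠ det v w then
        1 - 2 * ((det p w / det v w : ℚ) : ℝ) else 0) =
      (∑ p ∈ P, if det p w = det v w ∧ det v p ≠ 0 then
        1 - 2 * ((det v p / det v w : ℚ) : ℝ) else 0) := by
    rw [← Finset.sum_filter, ← Finset.sum_filter]
    have dd : ∀ p, det (A p) w = - det v p := by
      intro p
      rw [hw, hA.det_eq, det_swap]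
    have hk2 : ∀ p, det v p = 0 → det v (v + A p) = det p w := by
      intro p cb
      rw [det_add_right, det_self, zero_add]
      have e := det_expand v w p
      rw [cb, zero_smul, add_zero] at e
      have e' : det v w • A p = det p w • w := by
        have := congrArg A e
        rw [map_ratCast_smul' A, map_ratCast_smul' A] at this
        exact this
      have e4 := congrArg (fun q => det v q) e'
      simp only [det_smul_right] at e4
      exact mul_left_cancel₀ hD.ne' (by rw [e4]; ring)
    refine Finset.sum_nbij' (fun p => v + A p) (fun q => A.symm (q - v)) ?_ ?_ ?_ ?_ ?_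
    · intro p hp
      rw [Finset.mem_filter, hPm] at hp
      obtain ⟨⟨hp, h1, h2, h3, h4⟩, cb, ca⟩ := hp
      have k1 : det (v + A p) w = det v w := by
        rw [det_add_left, dd, cb, neg_zero, add_zero]
      have k2 : det v (v + A p) = det p w := hk2 p cb
      rw [Finset.mem_filter, hPm]
      refine ⟨⟨?_, ?_, ?_, ?_, ?_⟩, k1, ?_⟩
      · rw [add_comm, hv.per, hI]
        exact hp
      · rw [k1]; exact hD
      · rw [k1]
      · rw [k2]; exact h1.le
      · rw [k2]; exact lt_of_le_of_ne h2 ca
      · rw [k2]; exact h1.ne'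
    · intro q hq
      rw [Finset.mem_filter, hPm] at hq
      obtain ⟨⟨hq, h1, h2, h3, h4⟩, ca, cb⟩ := hq
      obtain ⟨p, hp⟩ : ∃ p, A p = q - v := A.surjective _
      have hps : A.symm (q - v) = p := by rw [← hp, AddEquiv.symm_apply_apply]
      have k1 : det v p = 0 := by
        rw [← hA.det_eq, ← hw, hp, sub_eq_add_neg, det_add_right, det_neg_right, det_swap q w,
          ca, det_swap v w]
        ring
      have k2 : det p w = det v q := by
        rw [← hk2 p k1, hp, add_sub_cancel]
      rw [Finset.mem_filter, hPm, hps]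
      refine ⟨⟨?_, ?_, ?_, ?_, ?_⟩, k1, ?_⟩
      · rw [← hI, hp, hv.per.sub_mem]
        exact hq
      · rw [k2]; exact lt_of_le_of_ne h3 (Ne.symm cb)
      · rw [k2]; exact h4.le
      · rw [k1]
      · rw [k1]; exact hD
      · rw [k2]; exact h4.ne
    · intro p _
      rw [add_sub_cancel_left, AddEquiv.symm_apply_apply]
    · intro q _
      rw [AddEquiv.apply_symm_apply, add_sub_cancel]
    · intro p hp
      rw [Finset.mem_filter, hPm] at hp
      rw [hk2 p hp.2.1]
  rw [e2]
  ring

end Pool.MP_d0f9e0_co.PH
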