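import Mathlib
import Pool.Agent.Lib.MP_d0f9e0_co.PH.Cs96
import Pool.Agent.Lib.MP_d0f9e0_co.GH.Adm
import Pool.Agent.Lib.MP_d0f9e0_co.GH.Card

set_option autoImplicit false

/-!
# The phase is quadratic modulo one

The value of a unimodular cone is, modulo one, a coboundary plus an affine function; by induction
the same is true for every cone, and the cone `v, A v` gives the quadratic form.
-/

namespace Pool.MP_d0f9e0_co.PH

open SH GH

variable {θ η : ℝ} {A : V ≃+ V} {L : AddSubgroup V} {δ : ℚ} {u w : V}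

/-- The integer with `S - mm S` in `(0, 1]`. -/
def mm (S : ℚ) : ℤ := ⌈S⌉ - 1

theorem mm_sub_int (S : ℚ) (a : ℤ) : mm (S - a) = mm S - a := by
  unfold mm
  rw [Int.ceil_sub_intCast]
  ring

theorem mm_neg (T : ℚ) : mm (-T) = -⌊T⌋ - 1 := by
  unfold mm
  rw [Int.ceil_neg]

theorem mm_lt (S : ℚ) : (mm S : ℚ) < S := by
  unfold mm
  have := Int.ceil_lt_add_one S
  push_cast
  linarith

theorem le_mm (S : ℚ) : S ≤ mm S + 1 := by
  unfold mm
  have := Int.le_ceil S
  push_cast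
  linarith

/-- The local term at the primitive vector `v` with complement `y`. -/
noncomputable def Lam (θ : ℝ) (δ : ℚ) (v y x : V) : ℝ :=
  (((det x v / δ - mm (det x v / δ) : ℚ) : ℝ) ^ 2 - ((det x v / δ - mm (det x v / δ) : ℚ) : ℝ) +
      1 / 6) / 2 * (ell θ y / ell θ v)
    - (mm (det x v / δ) : ℝ) * ((det y x / δ : ℚ) : ℝ) + (mm (det x v / δ) : ℝ) / 2
    + ((det x v / δ : ℚ) : ℝ) * ((det y x / δ : ℚ) : ℝ) / 2

theorem eq_of_det {v w p q : V} (hd : det v w ≠ 0) (h1 : det p w = det q w)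
    (h2 : det v p = det v q) : p = q := by
  have e1 := det_expand v w p
  have e2 := det_expand v w q
  rw [h1, h2, ← e2] at e1
  have := congrArg (fun x => (det v w)⁻¹ • x) e1
  simpa only [smul_smul, inv_mul_cancel₀ hd, one_smul] using this

/-- The only point of a coset in a unimodular parallelogram. -/
theorem single (hLat : Lat L δ u w) {v v' : V} (hv : v ∈ L) (hv' : v' ∈ L) (hd : det v v' = δ)
    (x q : V) :
    q ∈ fib L (QuotientAddGroup.mk x) ∩ Par v v' ↔
      q = x - ((mm (det x v' / δ) : ℤ) : ℚ) • v - ((⌊det v x / δ⌋ : ℤ) : ℚ) • v' := by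
  have hδ : 0 < δ := hLat.pos
  set p0 := x - ((mm (det x v' / δ) : ℤ) : ℚ) • v - ((⌊det v x / δ⌋ : ℤ) : ℚ) • v' with hp0
  have d1 : det p0 v' = det x v' - (mm (det x v' / δ) : ℚ) * δ := by
    rw [hp0, det_sub_left, det_sub_left, det_smul_left, det_smul_left, det_self, hd]
    ring
  have d2 : det v p0 = det v x - (⌊det v x / δ⌋ : ℚ) * δ := by
    rw [hp0, det_sub_right, det_sub_right, det_smul_right, det_smul_right, det_self, hd]
    ring
  have h1 := mm_lt (det x v' / δ)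
  have h2 := le_mm (det x v' / δ)
  have h3 := Int.floor_le (det v x / δ)
  have h4 := Int.lt_floor_add_one (det v x / δ)
  rw [lt_div_iff₀ hδ] at h1
  rw [div_le_iff₀ hδ] at h2
  rw [le_div_iff₀ hδ] at h3
  rw [div_lt_iff₀ hδ] at h4
  have hmem : p0 ∈ fib L (QuotientAddGroup.mk x) := by
    rw [GH.mem_fib, QuotientAddGroup.eq]
    have e : -p0 + x = (mm (det x v' / δ)) • v + ⌊det v x / δ⌋ • v' := by
      rw [hp0, Int.cast_smul_eq_zsmul, Int.cast_smul_eq_zsmul]
      abel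
    rw [e]
    exact L.add_mem (L.zsmul_mem hv _) (L.zsmul_mem hv' _)
  constructor
  · rintro ⟨hq, g1, g2, g3, g4⟩
    rw [hd] at g2 g4
    have hl : q - p0 ∈ L := by
      rw [GH.mem_fib] at hq hmem
      have : (QuotientAddGroup.mk p0 : V ⧸ L) = QuotientAddGroup.mk q := by rw [hq, hmem]
      rw [QuotientAddGroup.eq] at this
      rwa [sub_eq_neg_add]
    obtain ⟨i, hi⟩ := hLat.det_int hl hv'
    obtain ⟨j, hj⟩ := hLat.det_int hv hl
    rw [det_sub_left] at hi
    rw [det_sub_right] at hj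
    refine eq_of_det (by rw [hd]; exact hδ.ne') ?_ ?_
    · have a1 : (i : ℚ) * δ < 1 * δ := by linarith
      have a2 : (-1 : ℚ) * δ < (i : ℚ) * δ := by linarith
      have b1 := lt_of_mul_lt_mul_right a1 hδ.le
      have b2 := lt_of_mul_lt_mul_right a2 hδ.le
      have b1' : i < 1 := by exact_mod_cast b1
      have b2' : -1 < i := by exact_mod_cast b2
      have : i = 0 := by omega
      rw [this, Int.cast_zero, zero_mul] at hi
      linarith
    · have a1 : (j : ℚ) * δ < 1 * δ := by linarith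
      have a2 : (-1 : ℚ) * δ < (j : ℚ) * δ := by linarith
      have b1 := lt_of_mul_lt_mul_right a1 hδ.le
      have b2 := lt_of_mul_lt_mul_right a2 hδ.le
      have b1' : j < 1 := by exact_mod_cast b1
      have b2' : -1 < j := by exact_mod_cast b2
      have : j = 0 := by omega
      rw [this, Int.cast_zero, zero_mul] at hj
      linarith
  · rintro rfl
    refine ⟨hmem, ?_, ?_, ?_, ?_⟩
    · rw [d1]; linarith
    · rw [d1, hd]; linarith
    · rw [d2]; linarith
    · rw [d2, hd]; linarith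

/-- The value of a unimodular cone. -/
theorem FZ_single (hLat : Lat L δ u w) {v v' : V} (hv : v ∈ L) (hv' : v' ∈ L)
    (hd : det v v' = δ) (h0 : 0 < ell θ v) (h0' : 0 < ell θ v') (x : V) {s t : ℝ}
    (hs : s = ((det x v' / δ - mm (det x v' / δ) : ℚ) : ℝ))
    (ht : t = ((det v x / δ - ⌊det v x / δ⌋ : ℚ) : ℝ)) :
    FZ θ (fib L (QuotientAddGroup.mk x)) v v' =
      (s ^ 2 - s + 1 / 6) / 2 * (ell θ v / ell θ v') +
        (t ^ 2 - t + 1 / 6) / 2 * (ell θ v' / ell θ v) + (s - 1 / 2) * (t - 1 / 2) := by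
  have hset : fib L (QuotientAddGroup.mk x) ∩ Par v v' =
      {x - ((mm (det x v' / δ) : ℤ) : ℚ) • v - ((⌊det v x / δ⌋ : ℤ) : ℚ) • v'} := by
    ext q
    rw [single hLat hv hv' hd x q, Set.mem_singleton_iff]
  have hδ : (δ : ℝ) ≠ 0 := by exact_mod_cast hLat.pos.ne'
  have hx := ell_expand θ v v' x
  rw [hd] at hx
  have he : ell θ (x - ((mm (det x v' / δ) : ℤ) : ℚ) • v - ((⌊det v x / δ⌋ : ℤ) : ℚ) • v') =
      s * ell θ v + t * ell θ v' := by
    rw [sub_eq_add_neg, sub_eq_add_neg, ell_add, ell_add, ell_neg, ell_neg, ell_smul, ell_smul,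
      hs, ht]
    push_cast
    have hx2 : ell θ x = (det x v' : ℝ) / δ * ell θ v + (det v x : ℝ) / δ * ell θ v' := by
      field_simp
      linarith
    rw [hx2]
    ring
  rw [FZ, hset, finsum_mem_singleton, he]
  unfold B22
  have h1 := h0.ne'
  have h2 := h0'.ne'
  field_simp
  ring

/-- The representation of a cone modulo one. -/
def Rep (θ : ℝ) (L : AddSubgroup V) (δ : ℚ) (v yv v' yv' : V) : Prop :=
  ∃ a b κ : ℝ, ∀ x : V, ∃ m : ℤ, FZ θ (fib L (QuotientAddGroup.mk x)) v v' =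
    Lam θ δ v' yv' x - Lam θ δ v yv x + a * x.1 + b * x.2 + κ + m

theorem rep_uni (hLat : Lat L δ u w) {v v' yv yv' : V} (hv : v ∈ L) (hv' : v' ∈ L)
    (hy : yv ∈ L) (hy' : yv' ∈ L) (hd : det v v' = δ) (h0 : 0 < ell θ v) (h0' : 0 < ell θ v')
    (hyv : det yv v = δ) (hyv' : det yv' v' = δ) : Rep θ L δ v yv v' yv' := by
  have hδ : δ ≠ 0 := hLat.pos.ne'
  obtain ⟨k, hk⟩ := hLat.det_int hv hy'
  obtain ⟨k', hk'⟩ := hLat.det_int hy hv'
  have e1 : yv' = v + (k : ℚ) • v' := by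
    refine eq_of_det (v := v) (w := v') (by rw [hd]; exact hδ) ?_ ?_
    · rw [hyv', det_add_left, det_smul_left, det_self, hd]; ring
    · rw [hk, det_add_right, det_smul_right, det_self, hd]; ring
  have e2 : yv = (k' : ℚ) • v - v' := by
    refine eq_of_det (v := v) (w := v') (by rw [hd]; exact hδ) ?_ ?_
    · rw [hk', det_sub_left, det_smul_left, det_self, hd]; ring
    · rw [det_sub_right, det_smul_right, det_self, hd, det_swap, hyv]; ring
  refine ⟨(1 + k) / 2 * ((v'.2 : ℝ) / (δ : ℝ)) + (k' - 1) / 2 * (-(v.2 : ℝ) / (δ : ℝ)),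
    (1 + k) / 2 * (-(v'.1 : ℝ) / (δ : ℝ)) + (k' - 1) / 2 * ((v.1 : ℝ) / (δ : ℝ)),
    -1 / 4 - k / 12 + k' / 12, fun x => ?_⟩
  set m := mm (det x v' / δ) with hm
  set m' := mm (det x v / δ) with hm'
  have hfl : ⌊det v x / δ⌋ = -m' - 1 := by
    have e3 : det x v / δ = -(det v x / δ) := by rw [det_swap v x]; ring
    rw [hm', e3, mm_neg]
    ring
  obtain ⟨i, hi⟩ : ∃ i : ℤ, m * (m + 1) = 2 * i := by
    obtain ⟨i, hi⟩ := Int.even_mul_succ_self m
    exact ⟨i, by rw [hi]; ring⟩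
  obtain ⟨i', hi'⟩ : ∃ i : ℤ, m' * (m' + 1) = 2 * i := by
    obtain ⟨i, hi⟩ := Int.even_mul_succ_self m'
    exact ⟨i, by rw [hi]; ring⟩
  have hiR : (m : ℝ) * (m + 1) = 2 * i := by exact_mod_cast hi
  have hiR' : (m' : ℝ) * (m' + 1) = 2 * i' := by exact_mod_cast hi'
  refine ⟨-m * m' - m - k * i + k' * i', ?_⟩
  rw [FZ_single hLat hv hv' hd h0 h0' x rfl rfl, ← hm, hfl]
  unfold Lam
  rw [← hm, ← hm']
  -- coordinates
  set S : ℝ := ((det x v' / δ : ℚ) : ℝ) with hS
  set T : ℝ := ((det v x / δ : ℚ) : ℝ) with hT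
  have c1 : ((det x v / δ : ℚ) : ℝ) = -T := by
    rw [hT, det_swap v x]
    push_cast
    ring
  have c2 : ((det yv' x / δ : ℚ) : ℝ) = T - k * S := by
    rw [e1, det_add_left, det_smul_left, det_swap x v', hS, hT]
    push_cast
    ring
  have c3 : ((det yv x / δ : ℚ) : ℝ) = S + k' * T := by
    rw [e2, det_sub_left, det_smul_left, det_swap x v', hS, hT]
    push_cast
    ring
  have c4 : ell θ yv' = ell θ v + k * ell θ v' := by
    rw [e1, ell_add, ell_smul]; push_cast; ring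
  have c5 : ell θ yv = k' * ell θ v - ell θ v' := by
    rw [e2, sub_eq_add_neg, ell_add, ell_smul, ell_neg]; push_cast; ring
  have c6 : ((det x v' / δ - m : ℚ) : ℝ) = S - m := by rw [hS]; push_cast; ring
  have c7 : ((det x v / δ - m' : ℚ) : ℝ) = -T - m' := by rw [← c1]; push_cast; ring
  have c8 : ((det v x / δ - ((-m' - 1 : ℤ) : ℚ) : ℚ) : ℝ) = T + m' + 1 := by
    rw [hT]; push_cast; ring
  have c9 : (v'.2 : ℝ) / (δ : ℝ) * x.1 + -(v'.1 : ℝ) / (δ : ℝ) * x.2 = S := by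
    rw [hS]
    simp only [det]
    push_cast
    ring
  have c10 : -(v.2 : ℝ) / (δ : ℝ) * x.1 + (v.1 : ℝ) / (δ : ℝ) * x.2 = T := by
    rw [hT]
    simp only [det]
    push_cast
    ring
  rw [c2, c3, c4, c5, c6, c7, c8, c1]
  have h1 := h0.ne'
  have h2 := h0'.ne'
  have r1 : (ell θ v + k * ell θ v') / ell θ v' = ell θ v / ell θ v' + k := by
    field_simp
  have r2 : (k' * ell θ v - ell θ v') / ell θ v = k' - ell θ v' / ell θ v := by
    field_simp
  rw [r1, r2]
  clear_value S T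
  push_cast
  linear_combination (-(k : ℝ) / 2) * hiR + ((k' : ℝ) / 2) * hiR' -
    (1 + (k : ℝ)) / 2 * c9 - ((k' : ℝ) - 1) / 2 * c10

end Pool.MP_d0f9e0_co.PH
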