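import Mathlib
import Pool.Agent.Lib.MP_d0f9e0_co.PH.Quad13

set_option autoImplicit false

/-!
# The phase is quadratic modulo one: induction over the cones and the final statement
-/

namespace Pool.MP_d0f9e0_co.PH

open SH GH

variable {θ η : ℝ} {A : V ≃+ V} {L : AddSubgroup V} {δ : ℚ} {u w : V}

theorem FZ_cocycle (hθ : Irrational θ) (hLat : Lat L δ u w) {v v' v'' : V} (hv : v ∈ L)
    (hv' : v' ∈ L) (hv'' : v'' ∈ L) (h0 : 0 < ell θ v) (h0' : 0 < ell θ v')
    (h0'' : 0 < ell θ v'') (d1 : 0 < det v v') (d2 : 0 < det v' v'') (x : V ⧸ L) :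
    FZ θ (fib L x) v v'' = FZ θ (fib L x) v v' + FZ θ (fib L x) v' v'' := by
  have hX := GH.fib_disc hLat x
  rw [FZ_eq θ hX, FZ_eq θ hX, FZ_eq θ hX, F_cocycle cs_SB hθ hX h0 h0' h0'' (GH.fib_per L x hv)
    (GH.fib_per L x hv') (GH.fib_per L x hv'') d1 d2, toAdd_mul]

theorem rep_all (hθ : Irrational θ) (hLat : Lat L δ u w) (N : ℕ) :
    ∀ v v' yv yv' : V, v ∈ L → v' ∈ L → yv ∈ L → yv' ∈ L → det v v' = N * δ → 0 < N →
      0 < ell θ v → 0 < ell θ v' → det yv v = δ → det yv' v' = δ → Rep θ L δ v yv v' yv' := by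
  induction N using Nat.strong_induction_on with
  | _ N ih =>
    intro v v' yv yv' hv hv' hy hy' hd hN h0 h0' hyv hyv'
    have hδ : 0 < δ := hLat.pos
    have hNq : (0 : ℚ) < N := by exact_mod_cast hN
    by_cases hN1 : N = 1
    · refine rep_uni hLat hv hv' hy hy' ?_ h0 h0' hyv hyv'
      rw [hd, hN1, Nat.cast_one, one_mul]
    obtain ⟨c, hc⟩ := hLat.det_int (L.neg_mem hy) hv'
    set t : V := -yv + ((-(c / (N : ℤ)) : ℤ) : ℚ) • v with ht
    have htL : t ∈ L := by
      rw [ht, Int.cast_smul_eq_zsmul]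
      exact L.add_mem (L.neg_mem hy) (L.zsmul_mem hv _)
    have d1 : det v t = δ := by
      rw [ht, det_add_right, det_smul_right, det_self, mul_zero, add_zero, det_neg_right,
        det_swap yv v, hyv, neg_neg]
    have hNz : (0 : ℤ) < N := by exact_mod_cast hN
    have hmod : c - (c / (N : ℤ)) * N = c % (N : ℤ) := by
      have := Int.mul_ediv_add_emod c N
      linarith
    have d2 : det t v' = ((c % (N : ℤ) : ℤ) : ℚ) * δ := by
      rw [ht, det_add_left, det_smul_left, hc, hd, ← hmod]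
      push_cast
      ring
    have hr0 : 0 ≤ c % (N : ℤ) := Int.emod_nonneg _ hNz.ne'
    have hrN : c % (N : ℤ) < N := Int.emod_lt_of_pos _ hNz
    set r := c % (N : ℤ) with hr
    have hrne : r ≠ 0 := by
      intro hz
      rw [hz, Int.cast_zero, zero_mul] at d2
      have e := det_expand v v' t
      rw [d2, zero_smul, zero_add, hd, d1] at e
      have e2 : (N : ℚ) • t = v' := by
        have e3 := congrArg (fun x => δ⁻¹ • x) e
        simp only [smul_smul] at e3
        rw [inv_mul_cancel₀ hδ.ne', one_smul] at e3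
        rw [← e3]
        congr 1
        field_simp
      obtain ⟨j, hj⟩ := hLat.det_int hy' htL
      rw [← e2, det_smul_right, hj] at hyv'
      have h1 : ((N : ℤ) * j : ℤ) = 1 := by
        have h2 : ((N : ℚ) * j) * δ = 1 * δ := by linarith
        have h3 := mul_right_cancel₀ hδ.ne' h2
        exact_mod_cast h3
      have h4 : (N : ℤ) = 1 := by
        rcases Int.eq_one_or_neg_one_of_mul_eq_one h1 with h | h
        · exact h
        · omega
      exact hN1 (by exact_mod_cast h4)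
    have hrpos : 0 < r := lt_of_le_of_ne hr0 (Ne.symm hrne)
    have hrq : (0 : ℚ) < r := by exact_mod_cast hrpos
    have h0t : 0 < ell θ t := by
      have e := ell_expand θ v v' t
      rw [hd, d1, d2] at e
      have hδR : (0 : ℝ) < δ := by exact_mod_cast hδ
      have hNR : (0 : ℝ) < N := by exact_mod_cast hN
      have hrR : (0 : ℝ) < r := by exact_mod_cast hrpos
      push_cast at e
      have h1 : 0 < (N : ℝ) * δ * ell θ t := by
        rw [e]
        positivity
      exact pos_of_mul_pos_right h1 (by positivity)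
    have hrt : ((r.toNat : ℕ) : ℤ) = r := Int.toNat_of_nonneg hr0
    have hrt' : ((r.toNat : ℕ) : ℚ) = r := by exact_mod_cast hrt
    have R1 : Rep θ L δ v yv t v := rep_uni hLat hv htL hy hv d1 h0 h0t hyv d1
    have R2 : Rep θ L δ t v v' yv' := by
      refine ih r.toNat (by omega) t v' v yv' htL hv' hv hy' ?_ (by omega) h0t h0' d1 hyv'
      rw [hrt', d2]
    obtain ⟨a1, b1, k1, H1⟩ := R1
    obtain ⟨a2, b2, k2, H2⟩ := R2
    refine ⟨a1 + a2, b1 + b2, k1 + k2, fun x => ?_⟩
    obtain ⟨m1, E1⟩ := H1 x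
    obtain ⟨m2, E2⟩ := H2 x
    refine ⟨m1 + m2, ?_⟩
    rw [FZ_cocycle hθ hLat hv htL hv' h0 h0t h0' (by rw [d1]; exact hδ)
      (by rw [d2]; exact mul_pos hrq hδ), E1, E2]
    push_cast
    ring

/-- Every lattice contains a primitive admissible vector. -/
theorem exists_prim_adm (hθ : Irrational θ) (hA : Hyp θ A η) (h1 : 1 < η)
    (hLat : Lat L δ u w) :
    ∃ v ∈ L, ∃ y ∈ L, det y v = δ ∧ 0 < ell θ v ∧ 0 < det v (A v) := by
  obtain ⟨v, hv, h2, h3⟩ := GH.exists_adm hθ hA h1 hLat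
  have hv' := hv
  rw [hLat.eq, AddSubgroup.mem_closure_pair] at hv'
  obtain ⟨m, n, hmn⟩ := hv'
  have hg : 0 < Int.gcd m n := by
    rw [Nat.pos_iff_ne_zero]
    intro h
    rw [Int.gcd_eq_zero_iff] at h
    rw [h.1, h.2, zero_smul, zero_smul, add_zero] at hmn
    rw [← hmn] at h2
    simp [ell] at h2
  obtain ⟨m', hm'⟩ := Int.gcd_dvd_left (a := m) (b := n)
  obtain ⟨n', hn'⟩ := Int.gcd_dvd_right (a := m) (b := n)
  have hgz : (Int.gcd m n : ℤ) ≠ 0 := by exact_mod_cast hg.ne'
  have hbez : m' * Int.gcdA m n + n' * Int.gcdB m n = 1 := by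
    have e := Int.gcd_eq_gcd_ab m n
    have e2 : (Int.gcd m n : ℤ) * (m' * Int.gcdA m n + n' * Int.gcdB m n) =
        (Int.gcd m n : ℤ) * 1 := by
      linear_combination (-1 : ℤ) * e - Int.gcdA m n * hm' - Int.gcdB m n * hn'
    exact mul_left_cancel₀ hgz e2
  set g := Int.gcd m n with hgd
  have huL := hLat.left_mem
  have hwL := hLat.right_mem
  set v0 : V := (m' : ℚ) • u + (n' : ℚ) • w with hv0
  have hv0L : v0 ∈ L := by
    rw [hv0, Int.cast_smul_eq_zsmul, Int.cast_smul_eq_zsmul]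
    exact L.add_mem (L.zsmul_mem huL _) (L.zsmul_mem hwL _)
  have hvv : v = (g : ℚ) • v0 := by
    rw [← hmn, hm', hn', hv0, ← Int.cast_smul_eq_zsmul ℚ, ← Int.cast_smul_eq_zsmul ℚ, smul_add,
      smul_smul, smul_smul]
    push_cast
    rfl
  have hgq : (0 : ℚ) < g := by exact_mod_cast hg
  have hgR : (0 : ℝ) < g := by exact_mod_cast hg
  refine ⟨v0, hv0L, ((Int.gcdB m n : ℤ) : ℚ) • u - ((Int.gcdA m n : ℤ) : ℚ) • w, ?_, ?_, ?_, ?_⟩
  · rw [Int.cast_smul_eq_zsmul, Int.cast_smul_eq_zsmul]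
    exact L.sub_mem (L.zsmul_mem huL _) (L.zsmul_mem hwL _)
  · rw [hv0, det_sub_left, det_smul_left, det_smul_left, det_add_right, det_add_right,
      det_smul_right, det_smul_right, det_smul_right, det_smul_right, det_self, det_self,
      det_swap u w, hLat.det_eq]
    have : ((m' * Int.gcdA m n + n' * Int.gcdB m n : ℤ) : ℚ) = 1 := by rw [hbez]; simp
    push_cast at this
    linear_combination δ * this
  · rw [hvv, ell_smul] at h2
    push_cast at h2
    exact pos_of_mul_pos_right h2 hgR.le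
  · rw [hvv, map_smul_rat, det_smul_left, det_smul_right] at h3
    exact pos_of_mul_pos_right (pos_of_mul_pos_right h3 hgq.le) hgq.le

end Pool.MP_d0f9e0_co.PH
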