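import Mathlib
import Pool.Agent.Lib.MP_d0f9e0_co.PH.Quad13b

set_option autoImplicit false

/-!
# The phase is quadratic modulo one: the final statement
-/

namespace Pool.MP_d0f9e0_co.PH

open SH GH

variable {θ η : ℝ} {A : V ≃+ V} {L : AddSubgroup V} {δ : ℚ} {u w : V}

/-- The remaining quadratic function of a lift. -/
noncomputable def RQ (A : V ≃+ V) (δ : ℚ) (v y p : V) : ℚ :=
  (det (A p - p) (A v) / δ * (det y p / δ) - det p v / δ * (det (A y) (A p - p) / δ) -
    det (A p - p) (A v) / δ * (det (A y) (A p - p) / δ)) / 2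

/-- The phase of a torsion point modulo one. -/
theorem clsZ_rep (hθ : Irrational θ) (hA : Hyp θ A η) (h1 : 1 < η) (hLat : Lat L δ u w)
    (hL : Stb A L) : ∃ v ∈ L, ∃ y ∈ L, det y v = δ ∧ ∃ a b κ : ℝ, ∀ p : V, A p - p ∈ L →
      ∃ m : ℤ, clsZ θ A (fib L (QuotientAddGroup.mk p)) =
        (RQ A δ v y p : ℝ) + a * p.1 + b * p.2 + κ + m := by
  obtain ⟨v, hv, y, hy, hyv, hpos, hdv⟩ := exists_prim_adm hθ hA h1 hLat
  have hδ : 0 < δ := hLat.pos
  have hAv : A v ∈ L := (hL v).mpr hv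
  have hAy : A y ∈ L := (hL y).mpr hy
  obtain ⟨N, hN⟩ := hLat.det_int hv hAv
  have hNpos : 0 < N := by
    have h2 : 0 < (N : ℚ) * δ := by rw [← hN]; exact hdv
    have h3 := pos_of_mul_pos_left h2 hδ.le
    exact_mod_cast h3
  have hNt : ((N.toNat : ℕ) : ℚ) = N := by
    have : ((N.toNat : ℕ) : ℤ) = N := Int.toNat_of_nonneg hNpos.le
    exact_mod_cast this
  have hpos' : 0 < ell θ (A v) := hA.pos_of hpos
  obtain ⟨a, b, κ, H⟩ := rep_all hθ hLat N.toNat v (A v) y (A y) hv hAv hy hAy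
    (by rw [hNt, hN]) (by omega) hpos hpos' hyv (by rw [hA.det_eq, hyv])
  -- `det (A p - p) (A v)` is linear in `p`
  obtain ⟨a', b', hab⟩ : ∃ a' b' : ℝ, ∀ p : V, ((det (A p - p) (A v) / δ : ℚ) : ℝ) =
      a' * p.1 + b' * p.2 := by
    refine ⟨((det (A (1, 0) - (1, 0)) (A v) / δ : ℚ) : ℝ),
      ((det (A (0, 1) - (0, 1)) (A v) / δ : ℚ) : ℝ), fun p => ?_⟩
    have e : A p - p = p.1 • (A (1, 0) - (1, 0)) + p.2 • (A (0, 1) - (0, 1)) := by
      have e1 : p = p.1 • ((1, 0) : V) + p.2 • ((0, 1) : V) := by ext <;> simp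
      have e2 : A p = p.1 • A (1, 0) + p.2 • A (0, 1) := by
        conv_lhs => rw [e1, map_add, map_smul_rat, map_smul_rat]
      rw [e2, smul_sub, smul_sub]
      conv_lhs => rw [e1]
      simp only [Prod.fst_add, Prod.snd_add, Prod.smul_fst, Prod.smul_snd, smul_eq_mul, mul_one,
        mul_zero, add_zero, zero_add]
      abel
    rw [e, det_add_left, det_smul_left, det_smul_left]
    push_cast
    ring
  refine ⟨v, hv, y, hy, hyv, a - a' / 2, b - b' / 2, κ, fun p hp => ?_⟩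
  obtain ⟨m, hm⟩ := H p
  have hx : (QuotientAddGroup.mk p : V ⧸ L) ∈ Fx A L := (mem_Fx hL p).mpr hp
  rw [clsZ_eq hθ hA (GH.fib_disc hLat _) (GH.fib_inv hL hx)
    ⟨GH.fib_per L _ hv, hpos, hdv⟩, hm]
  obtain ⟨i, hi⟩ := hLat.det_int hp hAv
  obtain ⟨j, hj⟩ := hLat.det_int hAy hp
  have hδ0 : δ ≠ 0 := hδ.ne'
  have c1 : det p (A v) / δ = det p v / δ - i := by
    have e : p = A p - (A p - p) := by abel
    have e2 : det p (A v) = det p v - i * δ := by
      conv_lhs => rw [e, det_sub_left, hA.det_eq, hi]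
    rw [e2]
    field_simp
  have c2 : det (A y) p / δ = det y p / δ - j := by
    have e : p = A p - (A p - p) := by abel
    have e2 : det (A y) p = det y p - j * δ := by
      conv_lhs => rw [e, det_sub_right, hA.det_eq, hj]
    rw [e2]
    field_simp
  have hi' : det (A p - p) (A v) / δ = i := by rw [hi]; field_simp
  have hj' : det (A y) (A p - p) / δ = j := by rw [hj]; field_simp
  have hab' := hab p
  rw [hi'] at hab'
  refine ⟨m + mm (det p v / δ) * j, ?_⟩
  unfold Lam RQ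
  rw [c1, c2, hi', hj', mm_sub_int, hA.ell_eq, hA.ell_eq]
  have e3 : η * ell θ y / (η * ell θ v) = ell θ y / ell θ v := by
    have := hA.pos.ne'
    have := hpos.ne'
    field_simp
  rw [e3]
  set S : ℚ := det p v / δ with hS
  set Y : ℚ := det y p / δ with hY
  clear_value S Y
  set k := mm S with hk
  clear_value k
  push_cast at hab' ⊢
  linear_combination (-(1 : ℝ) / 2) * hab'

/-- The polar form. -/
theorem RQ_polar (hA : Hyp θ A η) (hLat : Lat L δ u w) (hL : Stb A L) {v y : V} (hv : v ∈ L)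
    (hy : y ∈ L) (hyv : det y v = δ) {p q : V} (hp : A p - p ∈ L) (hq : A q - q ∈ L) :
    ∃ m : ℤ, RQ A δ v y (p + q) = RQ A δ v y p + RQ A δ v y q + det (A p - p) q / δ + m := by
  have hAv : A v ∈ L := (hL v).mpr hv
  have hAy : A y ∈ L := (hL y).mpr hy
  have hδ : δ ≠ 0 := hLat.pos.ne'
  obtain ⟨i, hi⟩ := hLat.det_int hp hAv
  obtain ⟨j, hj⟩ := hLat.det_int hAy hp
  obtain ⟨i', hi'⟩ := hLat.det_int hq hAv
  obtain ⟨j', hj'⟩ := hLat.det_int hAy hq
  have pl : ∀ g h : V, δ * det g h = det g (A v) * det (A y) h - det (A y) g * det h (A v) := by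
    intro g h
    have e : δ = det (A y) (A v) := by rw [hA.det_eq, hyv]
    rw [e]
    simp only [det]
    ring
  have c1 : ∀ g : V, det g (A v) = det g v - det (A g - g) (A v) := by
    intro g
    rw [det_sub_left, hA.det_eq]
    ring
  have c2 : ∀ g : V, det (A y) g = det y g - det (A y) (A g - g) := by
    intro g
    rw [det_sub_right, hA.det_eq]
    ring
  have e1 := pl (A p - p) q
  have e2 := pl (A q - q) p
  have e3 := pl (A p - p) (A q - q)
  have e4 := det_symm_aux hA p q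
  rw [c1 q, c2 q, hi, hj, hi', hj'] at e1
  rw [c1 p, c2 p, hi, hj, hi', hj'] at e2
  rw [hi, hj, hi', hj'] at e3
  have s1 : A (p + q) - (p + q) = (A p - p) + (A q - q) := by rw [map_add]; abel
  refine ⟨-i' * j, ?_⟩
  unfold RQ
  rw [s1]
  simp only [det_add_left, det_add_right]
  rw [hi, hj, hi', hj']
  set X1 := det p v
  set X2 := det q v
  set Y1 := det y p
  set Y2 := det y q
  set D1 := det (A p - p) q
  set D2 := det (A q - q) p
  set D3 := det (A p - p) (A q - q)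
  clear_value X1 X2 Y1 Y2 D1 D2 D3
  have e1' : D1 = i * Y2 - i * j' * δ - j * X2 + j * i' * δ := by
    apply mul_left_cancel₀ hδ
    linear_combination e1
  have e2' : D2 = i' * Y1 - i' * j * δ - j' * X1 + j' * i * δ := by
    apply mul_left_cancel₀ hδ
    linear_combination e2
  have e3' : D3 = i * j' * δ - j * i' * δ := by
    apply mul_left_cancel₀ hδ
    linear_combination e3
  have q1 : ((i : ℚ) * δ) / δ = i := by field_simp
  have q2 : ((j : ℚ) * δ) / δ = j := by field_simp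
  have q3 : ((i' : ℚ) * δ) / δ = i' := by field_simp
  have q4 : ((j' : ℚ) * δ) / δ = j' := by field_simp
  have q5 : ((i : ℚ) * δ + i' * δ) / δ = i + i' := by field_simp
  have q6 : ((j : ℚ) * δ + j' * δ) / δ = j + j' := by field_simp
  rw [q1, q2, q3, q4, q5, q6]
  have key : (i : ℚ) * Y2 + i' * Y1 - X1 * j' - X2 * j - δ * (i * j' + i' * j) =
      2 * D1 - 2 * i' * j * δ := by
    linear_combination (-1 : ℚ) * e1' - e2' + e3' - e4
  have key2 : ((i : ℚ) * Y2 + i' * Y1 - X1 * j' - X2 * j) / δ - (i * j' + i' * j) =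
      2 * (D1 / δ) - 2 * i' * j := by
    field_simp
    linear_combination key
  push_cast
  linear_combination (1 / 2 : ℚ) * key2

/-- **The phase is quadratic**: its square has the bicharacter `psi`. -/
theorem zquad (hθ : Irrational θ) (hA : Hyp θ A η) (h1 : 1 < η) (hLat : Lat L δ u w)
    (hL : Stb A L) {x y : V ⧸ L} (hx : x ∈ Fx A L) (hy : y ∈ Fx A L) :
    zL θ A L (x + y) ^ 2 * zL θ A L 0 ^ 2 =
      zL θ A L x ^ 2 * zL θ A L y ^ 2 * psi A L δ x y := by
  obtain ⟨v, hv, y', hy', hyv, a, b, κ, H⟩ := clsZ_rep hθ hA h1 hLat hL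
  obtain ⟨p, rfl⟩ := QuotientAddGroup.mk_surjective x
  obtain ⟨q, rfl⟩ := QuotientAddGroup.mk_surjective y
  rw [mem_Fx hL] at hx hy
  have hz : ∀ x : V ⧸ L, zL θ A L x ^ 2 = ex (clsZ θ A (fib L x)) := by
    intro x
    unfold zL ex
    rw [← Complex.exp_nat_mul]
    congr 1
    push_cast
    ring
  have hpq : A (p + q) - (p + q) ∈ L := by
    have e : A (p + q) - (p + q) = (A p - p) + (A q - q) := by rw [map_add]; abel
    rw [e]; exact L.add_mem hx hy
  have h00 : A (0 : V) - 0 ∈ L := by rw [map_zero, sub_zero]; exact L.zero_mem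
  obtain ⟨m1, E1⟩ := H (p + q) hpq
  obtain ⟨m2, E2⟩ := H p hx
  obtain ⟨m3, E3⟩ := H q hy
  obtain ⟨m4, E4⟩ := H 0 h00
  obtain ⟨m5, E5⟩ := RQ_polar hA hLat hL hv hy' hyv hx hy
  have E5' : ((RQ A δ v y' (p + q) : ℚ) : ℝ) = RQ A δ v y' p + RQ A δ v y' q +
      ((det (A p - p) q / δ : ℚ) : ℝ) + m5 := by
    rw [E5]; push_cast; ring
  have E6 : RQ A δ v y' 0 = 0 := by
    unfold RQ
    rw [map_zero, sub_zero]
    simp [det]
  rw [E6] at E4
  rw [← QuotientAddGroup.mk_add, psi_mk hA hLat hL hx hy, ← QuotientAddGroup.mk_zero L, hz, hz,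
    hz, hz, ← ex_add, ← ex_add, ← ex_add, E1, E2, E3, E4, E5']
  refine Eq.trans ?_ (ex_add_int _ (m1 + m4 + m5 - m2 - m3))
  congr 1
  simp only [Prod.fst_add, Prod.snd_add, Prod.fst_zero, Prod.snd_zero]
  push_cast
  ring

end Pool.MP_d0f9e0_co.PH
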